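import Pool.Agent.Helper43.GD.St

/-! Project GD (MP_b3ce06_al, owner helper43), module PA: the case `K = 1`. -/

set_option autoImplicit false

namespace Pool.Agent.Helper93.GD

open Pool.Agent.Helper43.GD

/-- a group is finite if it is generated by a finite subgroup `N` normalized by `t` and by `t`,
`t² ∈ N` -/
theorem fin_of {G : Type} [Group G] (N : Subgroup G) [Finite N] (t : G) (S : Set G)
    (hS : Subgroup.closure S = ⊤) (hSN : ∀ g ∈ S, g ∈ N ∨ g = t)
    (hn : ∀ g ∈ N, t⁻¹ * g * t ∈ N) (ht : t * t ∈ N) : Finite G := by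
  have key : ∀ g : G, g ∈ N ∨ g * t ∈ N := by
    intro g
    have hg : g ∈ Subgroup.closure S := by rw [hS]; exact Subgroup.mem_top g
    induction hg using Subgroup.closure_induction with
    | mem y hy =>
      rcases hSN y hy with h | h
      · exact Or.inl h
      · right; rw [h]; exact ht
    | one => exact Or.inl N.one_mem
    | mul y z _ _ hy hz =>
      rcases hy with hy | hy
      · rcases hz with hz | hz
        · exact Or.inl (N.mul_mem hy hz)
        · right
          rw [mul_assoc]
          exact N.mul_mem hy hz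
      · rcases hz with hz | hz
        · right
          have := N.mul_mem hy (hn z hz)
          have e : y * t * (t⁻¹ * z * t) = y * z * t := by group
          rwa [e] at this
        · left
          have := N.mul_mem (N.mul_mem hy (hn _ hz)) (N.inv_mem ht)
          have e : y * t * (t⁻¹ * (z * t) * t) * (t * t)⁻¹ = y * z := by group
          rwa [e] at this
    | inv y _ hy =>
      rcases hy with hy | hy
      · exact Or.inl (N.inv_mem hy)
      · right
        have := N.inv_mem (N.mul_mem (hn _ hy) (N.inv_mem ht))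
        have e : (t⁻¹ * (y * t) * t * (t * t)⁻¹)⁻¹ = y⁻¹ * t := by group
        rwa [e] at this
  have hf : (N : Set G).Finite := Set.toFinite _
  have hu : (Set.univ : Set G) ⊆ (N : Set G) ∪ (fun g => g * t⁻¹) '' (N : Set G) := by
    intro g _
    rcases key g with h | h
    · exact Or.inl h
    · exact Or.inr ⟨g * t, h, by group⟩
  exact Set.finite_univ_iff.1 ((hf.union (hf.image _)).subset hu)

theorem hPA (hIN : StIN) (hRI : StRI) (hEX : StEX) (hKB : StKB) : StPA := by
  intro G _ M a w t _hM h4 h3 hRel hcom hcl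
  have hK : (1 : G) = a⁻¹ * (cj a t 1)⁻¹ * a * cj a t 1 := by
    have : a⁻¹ * (cj a t 1)⁻¹ * a * cj a t 1 = a⁻¹ * (cj a t 1)⁻¹ * (a * cj a t 1) := by group
    rw [this, hcom]; group
  obtain ⟨-, -, -, hKM, -⟩ := hKB G M a w t 1 hRel hK
  rw [inv_one] at hKM
  obtain ⟨hr1, hr2, hr3⟩ := hRel
  have hcM : cj a t M = a⁻¹ := (inv_eq_of_mul_eq_one_right hKM).symm
  rw [hcM] at hr1
  -- `w²` is central
  have hww3 : w * w = a * w * (a * w) * (a * w) := by
    calc w * w = (w * a⁻¹ * w⁻¹) * w * (a * w) := by group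
      _ = (a * w * a) * w * (a * w) := by rw [← hr1]
      _ = _ := by group
  have hca : a * (w * w) = w * w * a := by
    have e1 : (a * w) * (w * w) = (w * w) * (a * w) := by
      rw [hww3]; group
    calc a * (w * w) = (a * w) * (w * w) * w⁻¹ := by group
      _ = (w * w) * (a * w) * w⁻¹ := by rw [e1]
      _ = _ := by group
  have hct : t * (w * w) = w * w * t := by
    calc t * (w * w) = w * (w⁻¹ * t * w) * w := by group
      _ = w * t⁻¹ * w := by rw [hr2]
      _ = w * w * (w⁻¹ * t * w)⁻¹ := by group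
      _ = w * w * t := by rw [hr2, inv_inv]
  have hc : ∀ g : G, g * (w * w) = w * w * g := by
    have hle : (⊤ : Subgroup G) ≤ Subgroup.centralizer {w * w} := by
      rw [← hcl, Subgroup.closure_le]
      rintro g (rfl | rfl | rfl)
      · exact Subgroup.mem_centralizer_singleton_iff.2 hca
      · exact Subgroup.mem_centralizer_singleton_iff.2 (by group)
      · exact Subgroup.mem_centralizer_singleton_iff.2 hct
    intro g
    exact Subgroup.mem_centralizer_singleton_iff.1 (hle (Subgroup.mem_top g))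
  obtain ⟨L, _, x, E, hx1, hxM, hspan, hadd, hE1, hEt⟩ := hEX G M a t hr3 hKM hcom
  have hRg : Rg L M x := hRI L M x hx1 hxM h4 h3 hspan
  let s : Sys L G :=
    { E := E
      F := fun b => w * E (-b) * w⁻¹
      Eadd := hadd
      Fadd := by
        intro p q
        change w * E (-(p + q)) * w⁻¹ = w * E (-p) * w⁻¹ * (w * E (-q) * w⁻¹)
        rw [neg_add, hadd]; group }
  have hsE : ∀ p, s.E p = E p := fun _ => rfl
  have hsF : ∀ p, s.F p = w * E (-p) * w⁻¹ := fun _ => rfl
  have htw : t⁻¹ * w = w * t := by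
    calc t⁻¹ * w = w * (w⁻¹ * t * w)⁻¹ := by group
      _ = w * t := by rw [hr2, inv_inv]
  have htE : ∀ p, t * E p * t⁻¹ = E (((x⁻¹ : Lˣ) : L) * p) := by
    intro p
    have := hEt (((x⁻¹ : Lˣ) : L) * p)
    rw [Units.mul_inv_cancel_left] at this
    rw [← this]; group
  have hTor : s.IsTor x t⁻¹ := by
    constructor
    · intro p
      rw [hsE, hsE, inv_inv]
      exact hEt p
    · intro p
      rw [hsF, hsF, inv_inv, ← mul_neg, ← htE]
      calc t⁻¹ * (w * E (-p) * w⁻¹) * t = (t⁻¹ * w) * E (-p) * (t⁻¹ * w)⁻¹ := by group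
        _ = (w * t) * E (-p) * (w * t)⁻¹ := by rw [htw]
        _ = _ := by group
  have hom1 : s.om 1 = w⁻¹ := by
    unfold Sys.om
    rw [hsE, hsF, inv_one, Units.val_one, neg_neg, hE1]
    calc a * (w * a * w⁻¹) * a = (a * w * a) * w⁻¹ * a := by group
      _ = (w * a⁻¹ * w⁻¹) * w⁻¹ * a := by rw [hr1]
      _ = w * a⁻¹ * (w * w)⁻¹ * a := by group
      _ = w * a⁻¹ * ((w * w)⁻¹ * (a * (w * w)) * (w * w)⁻¹) := by group
      _ = w * a⁻¹ * ((w * w)⁻¹ * (w * w * a) * (w * w)⁻¹) := by rw [hca]
      _ = w⁻¹ := by group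
  have hW1 : s.Weyl 1 := by
    constructor
    · intro p
      rw [hom1, hsE, hsF, inv_one, Units.val_one, neg_neg, one_mul, one_mul, inv_inv]
      calc w⁻¹ * E p * w = w⁻¹ * (E p * (w * w)) * w⁻¹ := by group
        _ = w⁻¹ * (w * w * E p) * w⁻¹ := by rw [hc]
        _ = _ := by group
    · intro p
      rw [hom1, hsE, hsF, Units.val_one, one_mul, one_mul, inv_inv]
      group
  have hWx : s.Weyl x := by
    have := s.weyl_tor hTor hW1
    rwa [mul_one] at this
  have hfin : Finite s.gp := hIN M L x hRg G s hW1 hWx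
  have hwN : w ∈ s.gp := by
    have := s.gp.inv_mem (s.om_mem 1)
    rwa [hom1, inv_inv] at this
  have haN : a ∈ s.gp := by
    have := s.E_mem 1
    rwa [hsE, hE1] at this
  have httN : t * t ∈ s.gp := by
    have h1 := s.gp.inv_mem (s.gp.mul_mem (s.om_mem x) (s.gp.inv_mem (s.om_mem 1)))
    have h2 : s.om x = t⁻¹ * w⁻¹ * t := by
      have := s.om_tor hTor 1
      rw [mul_one, hom1, inv_inv] at this
      exact this.symm
    rw [h2, hom1] at h1
    have e : (t⁻¹ * w⁻¹ * t * w⁻¹⁻¹)⁻¹ = t * t := by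
      calc (t⁻¹ * w⁻¹ * t * w⁻¹⁻¹)⁻¹ = (t⁻¹ * (w⁻¹ * t * w))⁻¹ := by group
        _ = _ := by rw [hr2, mul_inv_rev, inv_inv]
    rwa [e] at h1
  refine fin_of s.gp t {a, w, t} hcl ?_ ?_ httN
  · rintro g (rfl | rfl | rfl)
    · exact Or.inl haN
    · exact Or.inl hwN
    · exact Or.inr rfl
  · intro g hg
    unfold Sys.gp at hg
    induction hg using Subgroup.closure_induction with
    | mem y hy =>
      rcases hy with ⟨p, rfl⟩ | ⟨p, rfl⟩
      · have := hTor.1 p
        rw [inv_inv] at this
        rw [this]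
        exact s.E_mem _
      · have := hTor.2 p
        rw [inv_inv] at this
        rw [this]
        exact s.F_mem _
    | one => simpa using s.gp.one_mem
    | mul y z _ _ hy hz =>
      have := s.gp.mul_mem hy hz
      have e : t⁻¹ * y * t * (t⁻¹ * z * t) = t⁻¹ * (y * z) * t := by group
      rwa [e] at this
    | inv y _ hy =>
      have := s.gp.inv_mem hy
      have e : (t⁻¹ * y * t)⁻¹ = t⁻¹ * y⁻¹ * t := by group
      rwa [e] at this

end Pool.Agent.Helper93.GD
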